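import Pool.Agent.Helper8.AstralProof

/-!
MP_abecca_co: connected sporadic 3-astral 4-configurations exist for infinitely many `m` (the
finiteness conjecture is false).  All definitions are in `Pool/Agent/Helper8/AstralDefs.lean`.
-/

open Pool.Agent.Helper8.Astral

namespace Pool.Agent.Results.MP_abecca_co.InfinitelyManySporadic

/-- For every `h ≥ 1` there is a connected sporadic 3-astral 4-configuration with symbol
`(12h+6)#(3h+2, 4h+2; 6h+2, 4h+2; 3h+1, 6h+1)`; hence connected sporadic 3-astral
4-configurations exist for infinitely many `m`. -/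
theorem result :
    (∀ h : ℕ, 1 ≤ h → IsSporadicSymbol (12 * h + 6)
      ![3 * h + 2, 6 * h + 2, 3 * h + 1] ![4 * h + 2, 4 * h + 2, 6 * h + 1]) ∧
    {m : ℕ | ∃ s t : Fin 3 → ℕ, IsSporadicSymbol m s t}.Infinite := by
  refine ⟨main, ?_⟩
  apply Set.infinite_of_injective_forall_mem (f := fun h : ℕ => 12 * (h + 1) + 6)
  · intro a b hab
    simp only at hab
    omega
  · intro h
    exact ⟨_, _, main (h + 1) (by omega)⟩

end Pool.Agent.Results.MP_abecca_co.InfinitelyManySporadic
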